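import Pool.Agent.helper68.QZ.Spec

/-!
# Row qz:LB
-/

set_option autoImplicit false

namespace Pool.Agent.QZ

open N1f72dd46 Filter MeasureTheory Complex Metric Pool.Agent.helper6.LD
open scoped ComplexConjugate

lemma LB_fin (F : ℕ → ℝ) (M : ℕ) (h : ∀ p : ℕ, p.Prime → M < p → F p = 0) :
    ∑' p : Nat.Primes, F (p : ℕ) = ∑ p ∈ (Finset.Icc 1 M).filter Nat.Prime, F p := by
  have h1 : ∑' p : Nat.Primes, F (p : ℕ) = ∑' p : ℕ, Set.indicator {p : ℕ | p.Prime} F p :=
    tsum_subtype {p : ℕ | p.Prime} F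
  rw [h1, tsum_eq_sum (s := Finset.Icc 1 M)]
  · rw [Finset.sum_filter]
    apply Finset.sum_congr rfl
    intro p _
    by_cases hp : p.Prime
    · rw [Set.indicator_of_mem (by exact hp), if_pos hp]
    · rw [Set.indicator_of_notMem (by exact hp), if_neg hp]
  · intro p hp
    by_cases hp' : p.Prime
    · rw [Set.indicator_of_mem (by exact hp')]
      apply h p hp'
      rw [Finset.mem_Icc] at hp
      have := hp'.one_lt
      omega
    · rw [Set.indicator_of_notMem (by exact hp')]

lemma LB_log (p M : ℕ) (z : ℝ) (hz : Real.exp z ≤ M) (h : M < p) : z < Real.log p := by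
  have h1 : (M : ℝ) < p := by exact_mod_cast h
  have h2 : (0 : ℝ) < p := lt_of_le_of_lt (Nat.cast_nonneg M) h1
  rw [Real.lt_log_iff_exp_lt h2]
  linarith

lemma LB_small {g y : ℝ} {φ : ℝ → ℝ} (hφ : Good g (1 / 4) φ) (M : ℕ) (hM : Real.exp (y + 1) ≤ M) :
    -(∑ p ∈ (Finset.Icc 1 M).filter Nat.Prime, Real.log p) ≤ Lq φ y := by
  unfold Lq
  rw [LB_fin (fun p : ℕ => Real.log p * (φ (Real.log p - y) - φ (y - Real.log p))) M]
  · rw [← Finset.sum_neg_distrib]
    apply Finset.sum_le_sum
    intro p hp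
    rw [Finset.mem_filter] at hp
    have h1 : 0 ≤ Real.log p := Real.log_natCast_nonneg p
    have h2 := hφ.nonneg (Real.log p - y)
    have h3 := hφ.le_one (y - Real.log p)
    nlinarith
  · intro p hp hMp
    have h1 := LB_log p M _ hM hMp
    rw [hφ.large _ (by linarith), hφ.neg _ (by linarith)]
    ring

lemma LB_large (hCM : CM_stmt) {g y : ℝ} {φ : ℝ → ℝ} (hg : 1 ≤ g) (hφ : Good g (1 / 4) φ) (hy : 4 ≤ y) (n : ℕ)
    (hn : n = ⌊Real.exp (2 * y)⌋₊) :
    -(y * (2 * g * ((H n : ℝ) - G n + n + 1) / n + 6 * g)) ≤ Lq φ y := by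
  -- elementary facts
  set E : ℝ := Real.exp y with hE
  have hE0 : 0 < E := Real.exp_pos y
  have hE2 : Real.exp (2 * y) = E ^ 2 := by rw [hE, ← Real.exp_nat_mul]; norm_num
  have hE5 : 5 ≤ E := by have := Real.add_one_le_exp y; linarith
  rw [hE2] at hn
  have hnle : (n : ℝ) ≤ E ^ 2 := by rw [hn]; exact Nat.floor_le (by positivity)
  have hnlt : E ^ 2 < n + 1 := by rw [hn]; exact Nat.lt_floor_add_one _
  have hnpos : (0 : ℝ) < n := by nlinarith
  have hnhalf : E ^ 2 ≤ 2 * n := by nlinarith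
  set x : ℝ := Real.sqrt n with hx
  have hx0 : 0 ≤ x := Real.sqrt_nonneg _
  have hx2 : x ^ 2 = n := Real.sq_sqrt hnpos.le
  have hxpos : 0 < x := Real.sqrt_pos.2 hnpos
  have hxE : x ≤ E := by nlinarith
  have hx3 : Real.exp 3 < x := by
    have h1 : Real.exp 8 ≤ E ^ 2 := by
      rw [← hE2]; exact Real.exp_le_exp.2 (by linarith)
    have h2 : Real.exp 8 = (Real.exp 3) ^ 2 * Real.exp 2 := by
      rw [← Real.exp_nat_mul, ← Real.exp_add]; norm_num
    have h3 : 3 ≤ Real.exp 2 := by have := Real.add_one_le_exp (2 : ℝ); linarith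
    have h4 : 4 ≤ Real.exp 3 := by have := Real.add_one_le_exp (3 : ℝ); linarith
    by_contra h5
    push Not at h5
    have h6 : x ^ 2 ≤ (Real.exp 3) ^ 2 := by nlinarith
    rw [hx2] at h6
    nlinarith
  -- the floors agree
  have hfl : ⌊x⌋₊ = ⌊E⌋₊ := by
    apply le_antisymm
    · exact Nat.floor_le_floor hxE
    · rw [Nat.le_floor_iff hx0]
      have h1 : (⌊E⌋₊ : ℝ) ≤ E := Nat.floor_le hE0.le
      have h2 : ((⌊E⌋₊ ^ 2 : ℕ) : ℝ) ≤ E ^ 2 := by push_cast; nlinarith [Nat.cast_nonneg (α := ℝ) ⌊E⌋₊]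
      have h3 : ⌊E⌋₊ ^ 2 ≤ n := by
        rw [hn]; exact Nat.le_floor h2
      have h4 : ((⌊E⌋₊ : ℝ)) ^ 2 ≤ x ^ 2 := by rw [hx2]; exact_mod_cast h3
      exact (pow_le_pow_iff_left₀ (Nat.cast_nonneg _) hx0 two_ne_zero).1 h4
  have hlogx : Real.log x ≤ y := by
    rw [Real.log_le_iff_le_exp hxpos]; exact hxE
  have hdel : y - Real.log x ≤ 1 / n := by
    have h1 : Real.log x = Real.log n / 2 := by
      rw [← hx2, Real.log_pow]; push_cast; ring
    have h2 : Real.log (E ^ 2 / n) = 2 * y - Real.log n := by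
      rw [Real.log_div (by positivity) hnpos.ne', ← hE2, Real.log_exp]
    have h3 : Real.log (E ^ 2 / n) ≤ E ^ 2 / n - 1 := Real.log_le_sub_one_of_pos (by positivity)
    have h4 : E ^ 2 / n - 1 ≤ 1 / n := by
      rw [div_sub_one hnpos.ne', div_le_div_iff_of_pos_right hnpos]
      linarith
    have h5 : 0 < 1 / (n : ℝ) := by positivity
    rw [h1]
    linarith
  set N : ℕ := ⌊E⌋₊ with hN
  have hNE : (N : ℝ) ≤ E := Nat.floor_le hE0.le
  have hNlt : E < N + 1 := Nat.lt_floor_add_one _
  have hNn : N ≤ n := by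
    have h1 : (N : ℝ) ≤ E ^ 2 := by nlinarith
    rw [hn]; exact Nat.le_floor h1
  have hCM' := hCM n x g φ hx0 hx2 hx3 hg hφ
  rw [hfl] at hCM'
  -- the sum
  have hsum : Lq φ y = ∑ p ∈ (Finset.Icc 1 N).filter Nat.Prime, Real.log p * (φ (Real.log p - y) - φ (y - Real.log p)) +
      ∑ p ∈ (Finset.Ioc N n).filter Nat.Prime, Real.log p * (φ (Real.log p - y) - φ (y - Real.log p)) := by
    unfold Lq
    rw [LB_fin (fun p : ℕ => Real.log p * (φ (Real.log p - y) - φ (y - Real.log p))) n]
    · have h1 : (Finset.Icc 1 n).filter Nat.Prime =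
          (Finset.Icc 1 N).filter Nat.Prime ∪ (Finset.Ioc N n).filter Nat.Prime := by
        ext p
        simp only [Finset.mem_union, Finset.mem_filter, Finset.mem_Icc, Finset.mem_Ioc]
        constructor
        · rintro ⟨⟨h1, h2⟩, h3⟩
          rcases Nat.lt_or_ge N p with h | h
          · right; exact ⟨⟨h, h2⟩, h3⟩
          · left; exact ⟨⟨h1, h⟩, h3⟩
        · rintro (⟨⟨h1, h2⟩, h3⟩ | ⟨⟨h1, h2⟩, h3⟩)
          · exact ⟨⟨h1, h2.trans hNn⟩, h3⟩
          · exact ⟨⟨by omega, h2⟩, h3⟩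
      rw [h1, Finset.sum_union]
      rw [Finset.disjoint_left]
      intro p hp hp'
      simp only [Finset.mem_filter, Finset.mem_Icc, Finset.mem_Ioc] at hp hp'
      omega
    · intro p hp hnp
      have h1 : (n : ℝ) + 1 ≤ p := by exact_mod_cast hnp
      have h2 : (0 : ℝ) < p := by linarith
      have h3 : 2 * y < Real.log p := by
        rw [Real.lt_log_iff_exp_lt h2, hE2]
        linarith
      rw [hφ.large _ (by linarith), hφ.neg _ (by linarith)]
      ring
  -- the first sum
  have hA : -(y * ∑ p ∈ (Finset.Icc 1 N).filter Nat.Prime, φ (y - Real.log p)) ≤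
      ∑ p ∈ (Finset.Icc 1 N).filter Nat.Prime, Real.log p * (φ (Real.log p - y) - φ (y - Real.log p)) := by
    rw [Finset.mul_sum, ← Finset.sum_neg_distrib]
    apply Finset.sum_le_sum
    intro p hp
    simp only [Finset.mem_filter, Finset.mem_Icc] at hp
    have hp0 : (0 : ℝ) < p := by exact_mod_cast hp.2.pos
    have h1 : Real.log p ≤ y := by
      rw [Real.log_le_iff_le_exp hp0]
      have : (p : ℝ) ≤ N := by exact_mod_cast hp.1.2
      linarith
    rw [hφ.neg (Real.log p - y) (by linarith)]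
    have h2 := hφ.nonneg (y - Real.log p)
    nlinarith
  have hB : y * ∑ p ∈ (Finset.Ioc N n).filter Nat.Prime, φ (Real.log p - y) ≤
      ∑ p ∈ (Finset.Ioc N n).filter Nat.Prime, Real.log p * (φ (Real.log p - y) - φ (y - Real.log p)) := by
    rw [Finset.mul_sum]
    apply Finset.sum_le_sum
    intro p hp
    simp only [Finset.mem_filter, Finset.mem_Ioc] at hp
    have hp0 : (0 : ℝ) < p := by exact_mod_cast hp.2.pos
    have h1 : y ≤ Real.log p := by
      rw [Real.le_log_iff_exp_le hp0]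
      have : (N : ℝ) + 1 ≤ p := by exact_mod_cast hp.1.1
      linarith
    rw [hφ.neg (y - Real.log p) (by linarith)]
    have h2 := hφ.nonneg (Real.log p - y)
    nlinarith
  -- replacing y by log x
  have hd0 : 0 ≤ y - Real.log x := by linarith
  have hEn : E * (1 / n) ≤ 1 := by
    rw [mul_one_div, div_le_one hnpos]
    nlinarith
  have hC : ∑ p ∈ (Finset.Icc 1 N).filter Nat.Prime, φ (y - Real.log p) ≤
      ∑ p ∈ (Finset.Icc 1 N).filter Nat.Prime, φ (Real.log x - Real.log p) + g := by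
    have h1 : ∀ p ∈ (Finset.Icc 1 N).filter Nat.Prime, φ (y - Real.log p) ≤
        φ (Real.log x - Real.log p) + g * (1 / n) := by
      intro p _
      have h2 := hφ.lip (y - Real.log p) (Real.log x - Real.log p)
      have h3 : y - Real.log p - (Real.log x - Real.log p) = y - Real.log x := by ring
      rw [h3, abs_of_nonneg hd0] at h2
      have h4 := le_abs_self (φ (y - Real.log p) - φ (Real.log x - Real.log p))
      have h5 : g * (y - Real.log x) ≤ g * (1 / n) := mul_le_mul_of_nonneg_left hdel (by linarith)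
      linarith
    refine (Finset.sum_le_sum h1).trans ?_
    rw [Finset.sum_add_distrib, Finset.sum_const, nsmul_eq_mul]
    have h2 : (((Finset.Icc 1 N).filter Nat.Prime).card : ℝ) ≤ E := by
      have h3 : ((Finset.Icc 1 N).filter Nat.Prime).card ≤ N := by
        refine (Finset.card_filter_le _ _).trans ?_
        rw [Nat.card_Icc]; omega
      have h4 : (((Finset.Icc 1 N).filter Nat.Prime).card : ℝ) ≤ N := by exact_mod_cast h3
      linarith
    have h5 : (((Finset.Icc 1 N).filter Nat.Prime).card : ℝ) * (g * (1 / n)) ≤ g := by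
      have h6 : 0 ≤ 1 / (n : ℝ) := by positivity
      calc (((Finset.Icc 1 N).filter Nat.Prime).card : ℝ) * (g * (1 / n)) ≤ E * (g * (1 / n)) :=
            mul_le_mul_of_nonneg_right h2 (by positivity)
        _ = g * (E * (1 / n)) := by ring
        _ ≤ g * 1 := mul_le_mul_of_nonneg_left hEn (by linarith)
        _ = g := mul_one g
    linarith
  have hD : ∑ p ∈ (Finset.Ioc N n).filter Nat.Prime, φ (Real.log p - Real.log x) - 3 * g ≤
      ∑ p ∈ (Finset.Ioc N n).filter Nat.Prime, φ (Real.log p - y) := by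
    have h1 : ∀ p ∈ (Finset.Ioc N n).filter Nat.Prime, φ (Real.log p - Real.log x) -
        (if p ≤ 3 * N then g * (1 / n) else 0) ≤ φ (Real.log p - y) := by
      intro p hp
      simp only [Finset.mem_filter, Finset.mem_Ioc] at hp
      by_cases h3 : p ≤ 3 * N
      · rw [if_pos h3]
        have h2 := hφ.lip (Real.log p - Real.log x) (Real.log p - y)
        have h3 : Real.log p - Real.log x - (Real.log p - y) = y - Real.log x := by ring
        rw [h3, abs_of_nonneg hd0] at h2
        have h4 := le_abs_self (φ (Real.log p - Real.log x) - φ (Real.log p - y))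
        have h5 : g * (y - Real.log x) ≤ g * (1 / n) := mul_le_mul_of_nonneg_left hdel (by linarith)
        linarith
      · rw [if_neg h3, sub_zero]
        have h4 : 3 * N + 1 ≤ p := by omega
        have h4' : (3 : ℝ) * N + 1 ≤ p := by exact_mod_cast h4
        have h5 : (0 : ℝ) < p := by have := Nat.cast_nonneg (α := ℝ) N; linarith
        have h6 : y + 1 / 4 < Real.log p := by
          rw [Real.lt_log_iff_exp_lt h5, Real.exp_add]
          have h7 : Real.exp (1 / 4 : ℝ) ≤ 2 := by
            have h8 := Real.exp_bound_div_one_sub_of_interval (x := (1 / 4 : ℝ)) (by norm_num) (by norm_num)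
            refine h8.trans (by norm_num)
          have h9 : E * Real.exp (1 / 4) ≤ E * 2 := mul_le_mul_of_nonneg_left h7 hE0.le
          have h10 : E * 2 < p := by linarith
          exact lt_of_le_of_lt h9 h10
        rw [hφ.large _ (by linarith)]
        exact hφ.nonneg _
    refine le_trans ?_ (Finset.sum_le_sum h1)
    rw [Finset.sum_sub_distrib]
    have h2 : ∑ p ∈ (Finset.Ioc N n).filter Nat.Prime, (if p ≤ 3 * N then g * (1 / (n : ℝ)) else 0) ≤ 3 * g := by
      rw [← Finset.sum_filter, Finset.sum_const, nsmul_eq_mul]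
      have h3 : (((Finset.Ioc N n).filter Nat.Prime).filter (fun p => p ≤ 3 * N)).card ≤ 3 * N := by
        have h4 : ((Finset.Ioc N n).filter Nat.Prime).filter (fun p => p ≤ 3 * N) ⊆ Finset.Icc 1 (3 * N) := by
          intro p hp
          simp only [Finset.mem_filter, Finset.mem_Ioc, Finset.mem_Icc] at hp ⊢
          exact ⟨by omega, hp.2⟩
        refine (Finset.card_le_card h4).trans ?_
        rw [Nat.card_Icc]; omega
      have h4 : ((((Finset.Ioc N n).filter Nat.Prime).filter (fun p => p ≤ 3 * N)).card : ℝ) ≤ 3 * E := by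
        have h5 : ((((Finset.Ioc N n).filter Nat.Prime).filter (fun p => p ≤ 3 * N)).card : ℝ) ≤ 3 * N := by
          exact_mod_cast h3
        linarith
      have h6 : 0 ≤ 1 / (n : ℝ) := by positivity
      calc ((((Finset.Ioc N n).filter Nat.Prime).filter (fun p => p ≤ 3 * N)).card : ℝ) * (g * (1 / n))
          ≤ 3 * E * (g * (1 / n)) := mul_le_mul_of_nonneg_right h4 (by positivity)
        _ = 3 * g * (E * (1 / n)) := by ring
        _ ≤ 3 * g * 1 := mul_le_mul_of_nonneg_left hEn (by linarith)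
        _ = 3 * g := mul_one _
    linarith
  -- the end
  set SA := ∑ p ∈ (Finset.Icc 1 N).filter Nat.Prime, φ (y - Real.log p)
  set SB := ∑ p ∈ (Finset.Ioc N n).filter Nat.Prime, φ (Real.log p - y)
  have hy0 : 0 ≤ y := by linarith
  have hfin : -(y * (2 * g * ((H n : ℝ) - G n + n + 1) / n + 6 * g)) ≤ -(y * SA) + y * SB := by
    have h1 : SA - SB ≤ 2 * g * ((H n : ℝ) - G n + n + 1) / n + 6 * g := by linarith
    have h2 := mul_le_mul_of_nonneg_left h1 hy0
    linarith
  rw [hsum]
  linarith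

/-- Row LB. -/
theorem LB (hCM : CM_stmt) : LB_stmt := by
  intro ω hω hH ε hε
  have h1 := hH (ε / 4) (by positivity)
  obtain ⟨n0, hn0⟩ := eventually_atTop.1 h1
  set y0 : ℝ := max 4 n0 with hy0
  set M : ℕ := ⌈Real.exp (y0 + 1)⌉₊ with hM
  set C0 : ℝ := ∑ p ∈ (Finset.Icc 1 M).filter Nat.Prime, Real.log p with hC0
  have hC00 : 0 ≤ C0 := Finset.sum_nonneg (fun p _ => Real.log_natCast_nonneg p)
  refine ⟨C0 + 24 / ε, by positivity, ?_⟩
  intro g y φ hg hy hφ
  have hexp1 : 1 ≤ Real.exp ((ω + ε) * y) := Real.one_le_exp (by positivity)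
  rcases le_total y y0 with hyy | hyy
  · -- small y
    have h2 : Real.exp (y + 1) ≤ M := by
      refine le_trans (Real.exp_le_exp.2 (by linarith)) (Nat.le_ceil _)
    have h3 := LB_small hφ M h2
    have h4 : C0 ≤ (C0 + 24 / ε) * g * Real.exp ((ω + ε) * y) := by
      have h5 : 0 ≤ 24 / ε := by positivity
      have h6 : C0 * 1 * 1 ≤ (C0 + 24 / ε) * g * Real.exp ((ω + ε) * y) := by
        apply mul_le_mul _ hexp1 zero_le_one (by positivity)
        apply mul_le_mul _ hg zero_le_one (by positivity)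
        linarith
      linarith
    linarith
  · have hy4 : 4 ≤ y := le_trans (le_max_left _ _) hyy
    have hyn : (n0 : ℝ) ≤ y := le_trans (le_max_right _ _) hyy
    set n : ℕ := ⌊Real.exp (2 * y)⌋₊ with hn
    have h2 := LB_large hCM hg hφ hy4 n hn
    have hnle : (n : ℝ) ≤ Real.exp (2 * y) := Nat.floor_le (Real.exp_pos _).le
    have hnlt : Real.exp (2 * y) < n + 1 := Nat.lt_floor_add_one _
    have hexp2 : 2 * y + 1 ≤ Real.exp (2 * y) := Real.add_one_le_exp _
    have hnn : (n0 : ℝ) ≤ n := by linarith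
    have hnn0 : n0 ≤ n := by exact_mod_cast hnn
    have hnpos : (0 : ℝ) < n := by linarith
    have hn1 : (1 : ℝ) ≤ n := by linarith
    have h3 := hn0 n hnn0
    have h4 : ((H n : ℝ) - G n + n + 1) / n ≤ (n : ℝ) ^ (ω / 2 + ε / 4) + 2 := by
      rw [div_le_iff₀ hnpos]
      have h5 : (n : ℝ) ^ (1 + ω / 2 + ε / 4 : ℝ) = n * (n : ℝ) ^ (ω / 2 + ε / 4) := by
        have h6 : (1 + ω / 2 + ε / 4 : ℝ) = 1 + (ω / 2 + ε / 4) := by ring
        rw [h6, Real.rpow_add hnpos, Real.rpow_one]
      rw [h5] at h3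
      nlinarith
    have h5 : (n : ℝ) ^ (ω / 2 + ε / 4) ≤ Real.exp ((ω + ε / 2) * y) := by
      refine (Real.rpow_le_rpow hnpos.le hnle (by positivity)).trans ?_
      rw [← Real.exp_mul]
      apply le_of_eq
      congr 1
      ring
    have h6 : y ≤ 2 / ε * Real.exp (ε / 2 * y) := by
      have h7 := Real.add_one_le_exp (ε / 2 * y)
      have h8 : 2 / ε * (ε / 2 * y) = y := by field_simp
      have h9 : 2 / ε * (ε / 2 * y) ≤ 2 / ε * Real.exp (ε / 2 * y) :=
        mul_le_mul_of_nonneg_left (by linarith) (by positivity)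
      linarith
    have h7 : 2 * g * ((H n : ℝ) - G n + n + 1) / n = 2 * g * (((H n : ℝ) - G n + n + 1) / n) := by ring
    rw [h7] at h2
    have hX1 : 1 ≤ Real.exp ((ω + ε / 2) * y) := Real.one_le_exp (by positivity)
    have h8 : 2 * g * (((H n : ℝ) - G n + n + 1) / n) + 6 * g ≤ 12 * g * Real.exp ((ω + ε / 2) * y) := by
      have h9 : 2 * g * (((H n : ℝ) - G n + n + 1) / n) ≤ 2 * g * (Real.exp ((ω + ε / 2) * y) + 2) :=
        mul_le_mul_of_nonneg_left (by linarith) (by linarith)
      nlinarith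
    have h10 : y * (2 * g * (((H n : ℝ) - G n + n + 1) / n) + 6 * g) ≤
        24 / ε * g * Real.exp ((ω + ε) * y) := by
      calc y * (2 * g * (((H n : ℝ) - G n + n + 1) / n) + 6 * g)
          ≤ y * (12 * g * Real.exp ((ω + ε / 2) * y)) := mul_le_mul_of_nonneg_left h8 hy
        _ ≤ (2 / ε * Real.exp (ε / 2 * y)) * (12 * g * Real.exp ((ω + ε / 2) * y)) :=
            mul_le_mul_of_nonneg_right h6 (by positivity)
        _ = 24 / ε * g * (Real.exp (ε / 2 * y) * Real.exp ((ω + ε / 2) * y)) := by ring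
        _ = 24 / ε * g * Real.exp ((ω + ε) * y) := by
            rw [← Real.exp_add]
            congr 2
            ring
    have h11 : 24 / ε * g * Real.exp ((ω + ε) * y) ≤ (C0 + 24 / ε) * g * Real.exp ((ω + ε) * y) := by
      apply mul_le_mul_of_nonneg_right _ (Real.exp_pos _).le
      apply mul_le_mul_of_nonneg_right _ (by linarith)
      linarith
    linarith

end Pool.Agent.QZ
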